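import Mathlib

open Finset Real

namespace Pool.Agent.Results.MP_c2536d_co.OrAnd

/-- The identification of `Bool` with `{±1}`. -/
def sg (b : Bool) : ℝ := if b then -1 else 1

/-- `χ_S(x) = ∏_{i ∈ S} x_i`. -/
def chi {ι : Type} (S : Finset ι) (x : ι → Bool) : ℝ := ∏ i ∈ S, sg (x i)

/-- Expectation over the uniform measure on the cube. -/
noncomputable def E {m : ℕ} (F : (Fin m → Bool) → ℝ) : ℝ := (∑ x, F x) / 2 ^ m

/-- Fourier–Walsh coefficient of the `±1`-valued function `f`. -/
noncomputable def hat {m : ℕ} (f : (Fin m → Bool) → Bool) (S : Finset (Fin m)) : ℝ :=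
  E fun x => sg (f x) * chi S x

section
variable {ι : Type} [Fintype ι] [DecidableEq ι]

lemma orth (S T : Finset ι) : ∑ x, chi S x * chi T x = if S = T then 2 ^ Fintype.card ι else 0 := by
  have : ∀ x, chi S x * chi T x = ∏ i, (if i ∈ S then sg (x i) else 1) * if i ∈ T then sg (x i) else 1 := fun x => by
    rw [prod_mul_distrib]; simp [chi]
  simp only [this]
  rw [← Fintype.prod_sum fun i b => (if i ∈ S then sg b else 1) * if i ∈ T then sg b else 1]
  split_ifs with h
  · subst h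
    rw [← card_univ, ← prod_const]
    exact prod_congr rfl fun i _ => by split_ifs <;> norm_num [sg]
  · obtain ⟨i, p⟩ := not_forall.1 (mt Finset.ext h)
    exact prod_eq_zero (mem_univ i) (by split_ifs <;> simp_all [sg])

lemma pars {κ : Type} (A : Finset κ) (g : κ → Finset ι) (hg : Function.Injective g) (c : κ → ℝ) :
    ∑ x, (∑ k ∈ A, c k * chi (g k) x) ^ 2 = 2 ^ Fintype.card ι * ∑ k ∈ A, c k ^ 2 := by
  classical
  simp only [sq, sum_mul_sum, mul_mul_mul_comm (c _)]
  rw [sum_comm, mul_sum]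
  refine sum_congr rfl fun k p => ?_
  rw [sum_comm]
  simp [← mul_sum, orth, hg.eq_iff, p, mul_comm]

lemma lin (a : ι → ℝ) : ∑ s : ι → Bool, (∑ j, a j * sg (s j)) ^ 2 = 2 ^ Fintype.card ι * ∑ j, a j ^ 2 := by
  simpa [chi] using pars univ (fun j : ι => {j}) singleton_injective a

lemma chf (c : ℝ) (a : ι → ℝ) :
    ∑ s : ι → Bool, cos (c + ∑ j, a j * sg (s j)) = cos c * (2 ^ Fintype.card ι * ∏ j, cos (a j)) := by
  have := Fintype.prod_sum fun j (b : Bool) => Complex.exp ((a j * sg b : ℝ) * .I)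
  have e : ∀ j, ∑ b, Complex.exp ((a j * sg b : ℝ) * .I) = (2 * cos (a j) : ℝ) := fun j => by
    simp [sg, Complex.two_cos, add_comm]
  simp only [e, ← Complex.exp_sum, ← sum_mul, ← Complex.ofReal_sum, ← Complex.ofReal_prod] at this
  have := congrArg (fun z => (Complex.exp (c * .I) * z).re) this
  simp only [mul_sum, ← Complex.exp_add, ← add_mul, ← Complex.ofReal_add, Complex.re_sum,
    Complex.exp_ofReal_mul_I_re, Complex.re_mul_ofReal] at this
  rw [← this, prod_mul_distrib, prod_const, card_univ]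

lemma cosb {a : ℝ} (h : |a| ≤ 3 / 4) : cos (π * a) ^ 2 ≤ exp (-(a ^ 2 / 2)) := by
  refine le_trans ?_ (one_sub_le_exp_neg _)
  have := abs_nonneg a
  rw [cos_sq, ← cos_abs, ← sq_abs a, abs_mul, abs_mul, abs_two, abs_of_pos pi_pos]
  generalize |a| = t at *
  rcases le_total t (1 / 4) with p | p
  · have q := cos_le_one_sub_mul_cos_sq (x := 2 * (π * t)) (by rw [abs_of_nonneg (by positivity)]; nlinarith [pi_pos])
    rw [show 2 / π ^ 2 * (2 * (π * t)) ^ 2 = 8 * t ^ 2 by field_simp; ring] at q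
    nlinarith
  · nlinarith [cos_nonpos_of_pi_div_two_le_of_le (x := 2 * (π * t)) (by nlinarith [pi_pos]) (by nlinarith [pi_pos])]

open Classical in
lemma cube (φ : (ι → Bool) → Bool) (c : ℝ) (a : ι → ℝ) :
    ∑ s, (if (φ s = φ fun j => !s j) ↔ ∀ j, |a j| ≤ 3 / 4 then 0 else 1 : ℝ) ≤
      272 * ∑ s, (sg (φ s) - (c + ∑ j, a j * sg (s j))) ^ 2 := by
  set Z : (ι → Bool) → ℝ := fun s => sg (φ s) - (c + ∑ j, a j * sg (s j)) with hZ
  obtain ⟨N, hN⟩ : ∃ N : ℝ, N = 2 ^ Fintype.card ι := ⟨_, rfl⟩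
  have N0 : 0 < N := hN ▸ by positivity
  have cd : ∑ _s : ι → Bool, (1 : ℝ) = N := by simp [hN]
  change _ ≤ 272 * ∑ s, Z s ^ 2
  obtain ⟨H, hH⟩ : ∃ H, H = ∑ s, Z s ^ 2 := ⟨_, rfl⟩
  have H0 : 0 ≤ H := hH ▸ by positivity
  rw [← hH]
  rcases le_or_gt N (272 * H) with h | h
  · exact (sum_le_sum fun s _ => by split_ifs <;> norm_num).trans (cd.trans_le h)
  let a' : ι → ℝ := fun j => if |a j| ≤ 3 / 4 then a j else 0
  have T : N * ∑ j, a' j ^ 2 ≤ 40 * H := by
    have p := chf (π * c) fun j => π * a j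
    have q : ∑ s : ι → Bool, (1 - 5 * Z s ^ 2) ≤ ∑ s : ι → Bool, -cos (π * c + ∑ j, π * a j * sg (s j)) :=
      sum_le_sum fun s _ => by
        have : π * c + ∑ j, π * a j * sg (s j) = π * sg (φ s) - π * Z s := by
          simp only [hZ, mul_assoc, ← mul_sum]; ring
        have r : cos (π * sg (φ s) - π * Z s) = -cos (π * Z s) := by
          cases φ s <;> simp [sg, cos_sub]
        have := mul_le_mul_of_nonneg_right (show π ^ 2 ≤ 10 by nlinarith [pi_lt_d2, pi_pos]) (sq_nonneg (Z s))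
        rw [‹_ + _ = _›, r]
        nlinarith [one_sub_sq_div_two_le_cos (x := π * Z s)]
    rw [sum_neg_distrib, p, sum_sub_distrib, cd, ← mul_sum, ← hH, ← hN] at q
    have r : (∏ j, cos (π * a j)) ^ 2 ≤ exp (-((∑ j, a' j ^ 2) / 2)) := by
      rw [← prod_pow, sum_div, ← sum_neg_distrib, exp_sum]
      refine prod_le_prod (fun _ _ => sq_nonneg _) fun j _ => ?_
      simp only [a']
      split_ifs with u
      exacts [cosb u, by simpa using cos_sq_le_one _]
    generalize ∏ j, cos (π * a j) = P at *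
    have T0 : 0 ≤ ∑ j, a' j ^ 2 := by positivity
    generalize ∑ j, a' j ^ 2 = T at *
    have u : (N - 5 * H) ^ 2 ≤ N ^ 2 * P ^ 2 := by
      have := pow_le_pow_left₀ (by linarith) q 2
      nlinarith [mul_le_mul_of_nonneg_right (cos_sq_le_one (π * c)) (sq_nonneg (N * P))]
    have v : (T / 2 + 1) * P ^ 2 ≤ 1 := by
      have := mul_le_mul (add_one_le_exp (T / 2)) r (sq_nonneg _) (exp_pos _).le
      rwa [← exp_add, add_neg_cancel, exp_zero] at this
    have w : (T / 2 + 1) * (N - 10 * H) ≤ N := by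
      refine le_of_mul_le_mul_left ?_ N0
      nlinarith [mul_le_mul_of_nonneg_left u (by positivity : 0 ≤ T / 2 + 1), mul_le_mul_of_nonneg_left v (sq_nonneg N),
        mul_nonneg (by positivity : 0 ≤ T / 2 + 1) (sq_nonneg H)]
    nlinarith [mul_le_mul_of_nonneg_left h.le T0]
  let V : (ι → Bool) → ℝ := fun s => (Z s - Z fun j => !s j) / 2
  have hV : ∑ s, V s ^ 2 ≤ H := by
    have e : ∑ s : ι → Bool, Z (fun j => !s j) ^ 2 = H := hH ▸
      Equiv.sum_comp (Function.Involutive.toPerm (fun (s : ι → Bool) j => !s j) fun s => by simp) fun s => Z s ^ 2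
    have : ∑ s, V s ^ 2 ≤ ∑ s, (Z s ^ 2 + Z (fun j => !s j) ^ 2) / 2 :=
      sum_le_sum fun s _ => by simp only [V]; nlinarith [sq_nonneg (Z s + Z fun j => !s j)]
    rw [← sum_div, sum_add_distrib, e, ← hH] at this
    linarith
  have D : ∀ s, ∑ j, a j * sg (s j) = (sg (φ s) - sg (φ fun j => !s j)) / 2 - V s := fun s => by
    have : ∑ j, a j * sg (!s j) = -∑ j, a j * sg (s j) := by
      rw [← sum_neg_distrib]; exact sum_congr rfl fun j _ => by cases s j <;> simp [sg]
    simp only [V, hZ, this]; ring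
  have one : ∀ i j, 3 / 4 < |a i| → 3 / 4 < |a j| → i = j := fun i j p q => by
    by_contra r
    have u : a i ^ 2 + a j ^ 2 ≤ ∑ k, a k ^ 2 := by
      rw [← sum_pair (f := fun k => a k ^ 2) r]
      exact sum_le_sum_of_subset_of_nonneg (subset_univ _) fun _ _ _ => sq_nonneg _
    have v : ∑ s : ι → Bool, (∑ j, a j * sg (s j)) ^ 2 ≤ ∑ s, (17 / 16 * 1 + 17 * V s ^ 2) := sum_le_sum fun s _ => by
      rw [D]
      cases φ s <;> cases φ fun j => !s j <;> simp [sg] <;> nlinarith [sq_nonneg (V s - 1 / 16), sq_nonneg (V s + 1 / 16)]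
    rw [lin, sum_add_distrib, ← mul_sum, ← mul_sum, cd, ← hN] at v
    rw [← sq_abs (a i), ← sq_abs (a j)] at u
    nlinarith [mul_le_mul_of_nonneg_left (show 9 / 8 ≤ ∑ k, a k ^ 2 by nlinarith) N0.le]
  calc _ ≤ ∑ s : ι → Bool, (4 * V s ^ 2 + 4 * (∑ j, a' j * sg (s j)) ^ 2) := sum_le_sum fun s _ => by
        split_ifs with p
        · positivity
        have d := D s
        by_cases q : ∀ j, |a j| ≤ 3 / 4
        · simp only [a', q, if_true, d]
          simp only [q, implies_true, iff_true] at p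
          revert p
          cases φ s <;> cases φ fun j => !s j <;> simp [sg] <;> nlinarith [sq_nonneg (V s - 1 / 2), sq_nonneg (V s + 1 / 2)]
        · rw [← (by tauto : φ s = φ fun j => !s j), sub_self] at d
          obtain ⟨i, q⟩ := not_forall.1 q
          have e : ∑ j, a j * sg (s j) = a i * sg (s i) + ∑ j, a' j * sg (s j) := by
            rw [← add_sum_erase _ _ (mem_univ i), ← add_sum_erase _ (fun j => a' j * sg (s j)) (mem_univ i)]
            simp only [a', q, if_false, zero_mul, zero_add, add_right_inj]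
            exact sum_congr rfl fun j r => by
              rw [if_pos (not_lt.1 fun u => (mem_erase.1 r).1 (one _ _ u (not_le.1 q)))]
          have u : 9 / 16 < (a i * sg (s i)) ^ 2 := by
            have : sg (s i) ^ 2 = 1 := by cases s i <;> simp [sg]
            rw [mul_pow, this, ← sq_abs]
            nlinarith [not_le.1 q]
          rw [show a i * sg (s i) = -(V s + ∑ j, a' j * sg (s j)) by linarith] at u
          nlinarith [sq_nonneg (V s - ∑ j, a' j * sg (s j))]
    _ ≤ _ := by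
        rw [sum_add_distrib, ← mul_sum, ← mul_sum, lin, ← hN]
        linarith
end

open Classical in
theorem result : ∃ K : ℝ, ∀ (m n : ℕ) (b : Fin m → Fin n) (ε : ℝ) (f : (Fin m → Bool) → Bool),
    1 - ε ≤ ∑ S ∈ univ.filter (fun S : Finset (Fin m) => ∃ j, ∀ i ∈ S, b i = j), hat f S ^ 2 →
    ∃ h : ∀ j : Fin n, ({i // b i = j} → Bool) → Bool,
      E (fun x => (sg (f x) - sg (decide (∃ j, h j fun i => x i.1))) ^ 2) ≤ K * ε ∨
      E (fun x => (sg (f x) - sg (decide (∀ j, h j fun i => x i.1))) ^ 2) ≤ K * ε := by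
  refine ⟨1088, fun m n b ε f hf => ?_⟩
  set A := univ.filter fun S : Finset (Fin m) => ∃ j, ∀ i ∈ S, b i = j with hA
  let Z : (Fin m → Bool) → ℝ := fun x => sg (f x) - ∑ S ∈ A, hat f S * chi S x
  have N0 : (0 : ℝ) < 2 ^ m := by positivity
  have hZ : ∑ x, Z x ^ 2 ≤ 2 ^ m * ε := by
    have e : ∀ x, sg (f x) ^ 2 = 1 := fun x => by cases f x <;> simp [sg]
    have u : ∑ x, sg (f x) * ∑ S ∈ A, hat f S * chi S x = 2 ^ m * ∑ S ∈ A, hat f S ^ 2 := by
      simp only [mul_sum]
      rw [sum_comm]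
      refine sum_congr rfl fun S _ => ?_
      simp only [mul_left_comm _ (hat f S), ← mul_sum]
      rw [sq, mul_left_comm]
      congr 1
      simp only [hat, E]
      field_simp
    simp only [Z, sub_sq, e, mul_assoc, sum_add_distrib, sum_sub_distrib, ← mul_sum, u]
    rw [show ∑ x, (∑ S ∈ A, hat f S * chi S x) ^ 2 = _ from pars A id Function.injective_id _]
    simp
    nlinarith
  have : ∀ S : A, ∃ j, ∀ i ∈ S.1, b i = j := fun S => (mem_filter.1 S.2).2
  choose β hβ using this
  let Y : Fin n → (Fin m → Bool) → ℝ := fun j x => ∑ S : A with β S = j, hat f S * chi S.1 x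
  have loc : ∀ j x y, (∀ i, b i = j → x i = y i) → Y j x = Y j y := fun j x y h => sum_congr rfl fun S p =>
    congrArg _ (prod_congr rfl fun i q => by rw [h i ((hβ S i q).trans (mem_filter.1 p).2)])
  have sY : ∀ x, Z x = sg (f x) - ∑ j, Y j x := fun x => by
    simp only [Z, Y, sum_fiberwise, sum_coe_sort A fun S => hat f S * chi S x]
  let hy : (Fin n → Bool) → (Fin m → Bool) → (Fin m → Bool) → Fin m → Bool := fun s x z i => if s (b i) then z i else x i
  have Yh : ∀ s x z j, Y j (hy s x z) = if s j then Y j z else Y j x := fun s x z j => by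
    split_ifs with p <;> exact loc _ _ _ fun i q => by simp [hy, q, p]
  let B : (Fin m → Bool) × (Fin m → Bool) → ℝ := fun p =>
    if f p.1 = f p.2 ↔ ∀ j, |(Y j p.1 - Y j p.2) / 2| ≤ 3 / 4 then 0 else 1
  have sw : ∀ (s : Fin n → Bool) (G : (Fin m → Bool) × (Fin m → Bool) → ℝ),
      ∑ p : (Fin m → Bool) × (Fin m → Bool), G (hy s p.1 p.2, hy s p.2 p.1) = ∑ p, G p := fun s G =>
    Equiv.sum_comp (Function.Involutive.toPerm (fun p => (hy s p.1 p.2, hy s p.2 p.1)) fun p => by
      ext i <;> simp only [hy] <;> split_ifs <;> rfl) G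
  have key : ∑ s : Fin n → Bool, ∑ p, B p ≤ ∑ s : Fin n → Bool, ∑ p : (Fin m → Bool) × (Fin m → Bool), 272 * Z p.1 ^ 2 := by
    rw [sum_congr rfl fun s _ => (sw s B).symm, sum_congr rfl fun s _ => (sw s fun p => 272 * Z p.1 ^ 2).symm,
      sum_comm, sum_comm (s := (univ : Finset (Fin n → Bool)))]
    refine sum_le_sum fun ⟨x, z⟩ _ => ?_
    rw [← mul_sum]
    refine ((sum_congr rfl fun s _ => ?_).trans_le
      (cube (fun s => f (hy s x z)) (∑ j, (Y j x + Y j z) / 2) fun j => (Y j x - Y j z) / 2)).trans_eq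
      (congrArg _ (sum_congr rfl fun s _ => ?_))
    · have : hy s z x = hy (fun j => !s j) x z := by ext i; by_cases p : s (b i) <;> simp [hy, p]
      have e : ∀ j, |(Y j (hy s x z) - Y j (hy s z x)) / 2| = |(Y j x - Y j z) / 2| := fun j => by
        simp only [Yh]; split_ifs
        exacts [by rw [← abs_neg]; congr 1; ring, rfl]
      simp only [B, e, ← this]
    · rw [sY, ← sum_add_distrib]
      congr 3
      ext j
      rw [Yh]
      cases s j <;> simp [sg] <;> ring
  simp only [sum_const, nsmul_eq_mul] at key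
  replace key := le_of_mul_le_mul_left key (by simp)
  rw [Fintype.sum_prod_type_right, Fintype.sum_prod_type_right] at key
  obtain ⟨z, -, hz⟩ := exists_le_of_sum_le univ_nonempty key
  simp only [← mul_sum] at hz
  let g : ∀ j : Fin n, ({i // b i = j} → Bool) → Prop := fun j u =>
    |(Y j (fun i => if p : b i = j then u ⟨i, p⟩ else false) - Y j z) / 2| ≤ 3 / 4
  have hg : ∀ j (x : Fin m → Bool), g j (fun i => x i.1) ↔ |(Y j x - Y j z) / 2| ≤ 3 / 4 := fun j x => by
    simp only [g]; rw [loc j _ x fun i p => by simp [p]]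
  have fin : ∀ F : (Fin m → Bool) → ℝ, (∀ x, F x = 4 * B (x, z)) → E F ≤ 1088 * ε := fun F h => by
    simp only [E, h, ← mul_sum]
    rw [div_le_iff₀ N0]
    linarith
  cases u : f z
  · refine ⟨fun j v => decide (¬ g j v), .inl (fin _ fun x => ?_)⟩
    simp only [B, decide_eq_true_eq, hg, ← not_forall, u]
    by_cases p : ∀ j, |(Y j x - Y j z) / 2| ≤ 3 / 4 <;> cases f x <;> simp only [p, sg] <;> norm_num
  · refine ⟨fun j v => decide (g j v), .inr (fin _ fun x => ?_)⟩
    simp only [B, decide_eq_true_eq, hg, u]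
    by_cases p : ∀ j, |(Y j x - Y j z) / 2| ≤ 3 / 4 <;> cases f x <;> simp only [p, sg] <;> norm_num

end Pool.Agent.Results.MP_c2536d_co.OrAnd
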